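import Mathlib

/-!
# The gcd recursion of MP_453f59: the descent to the first zero

`α (n + 1) = α n - gcd (α n) n`.  The sum `T = n + α n` does not change while the gcd is one, and
`gcd (α n) n = gcd (α n) T`.
-/

set_option autoImplicit false

namespace H60GR

/-- The recursion at positive values. -/
def Rec1 (α : ℕ → ℕ) : Prop :=
  ∀ n, 1 ≤ n → 0 < α n → α (n + 1) = α n - Nat.gcd (α n) n

theorem unit1 {α : ℕ → ℕ} (hrec : Rec1 α) {n h c : ℕ} (hn : 1 ≤ n)
    (hα : α n = h) (hcop : ∀ i, c < i → i ≤ h → Nat.gcd i (n + h) = 1) :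
    ∀ j, c + j ≤ h → α (n + j) = h - j := by
  intro j
  induction j with
  | zero =>
    intro _
    simpa using hα
  | succ j ih =>
    intro hj
    have h1 := ih (by omega)
    have h2 := hrec (n + j) (by omega) (by omega)
    have h3 : Nat.gcd (h - j) (n + j) = 1 := by
      have h4 := hcop (h - j) (by omega) (by omega)
      rw [show n + h = n + j + (h - j) by omega, Nat.gcd_add_self_right] at h4
      exact h4
    rw [show n + (j + 1) = n + j + 1 by omega, h2, h1, h3]
    omega

/-- `1` if `3` divides `T`, and `0` otherwise. -/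
def d3 (T : ℕ) : ℕ := if 3 ∣ T then 1 else 0

theorem phase {T g u : ℕ} (hT : Odd T) (hg : g ∣ T) (hg2 : 2 ≤ g) (hp : T.minFac ≤ g)
    (hu : u + 1 ≤ T.minFac) {T' : ℕ} (hT' : T' + g = T + 1) :
    3 * u + 7 + d3 T' ≤ 4 * g + d3 T := by
  have hgo : Odd g := Odd.of_dvd_nat hT hg
  have hg3 : 3 ≤ g := by
    rcases hgo with ⟨k, hk⟩
    omega
  unfold d3
  by_cases h3 : 3 ∣ T
  · have h4 : T.minFac ≤ 3 := Nat.minFac_le_of_dvd (by norm_num) h3
    rw [if_pos h3]
    split_ifs with h5
    · have h6 : g ≠ 3 := by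
        rintro rfl
        obtain ⟨x, hx⟩ := h3
        obtain ⟨y, hy⟩ := h5
        omega
      have h7 : 5 ≤ g := by
        rcases hgo with ⟨k, hk⟩
        omega
      omega
    · omega
  · rw [if_neg h3]
    have h6 : g ≠ 3 := by
      rintro rfl
      exact h3 hg
    have h7 : 5 ≤ g := by
      rcases hgo with ⟨k, hk⟩
      omega
    split_ifs <;> omega

/-- From a positive value `h` at `n` to the first zero at `n + t`. -/
theorem descent1 {α : ℕ → ℕ} (hrec : Rec1 α) :
    ∀ h n, 1 ≤ n → α n = h → 0 < h → Odd (n + h) →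
      ∃ t, 0 < t ∧ α (n + t) = 0 ∧ (∀ i < t, 0 < α (n + i)) ∧
        7 * t + 3 ≤ 4 * h + 3 * (n + t).minFac + d3 (n + h) := by
  intro h
  induction h using Nat.strong_induction_on with
  | _ h ih =>
  intro n hn hα hh hodd
  obtain ⟨T, hT⟩ : ∃ T, T = n + h := ⟨_, rfl⟩
  rw [← hT] at hodd ⊢
  have hT2 : 2 ≤ T := by omega
  have hp := Nat.minFac_prime (show T ≠ 1 by omega)
  by_cases hex : ∃ i, 1 ≤ i ∧ i ≤ h ∧ Nat.gcd i T ≠ 1
  · -- the largest such number
    obtain ⟨c, ⟨hc1, hch, hcT⟩, hmax⟩ : ∃ c, (1 ≤ c ∧ c ≤ h ∧ Nat.gcd c T ≠ 1) ∧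
        ∀ i, c < i → i ≤ h → Nat.gcd i T = 1 := by
      classical
      have hne : ((Finset.Icc 1 h).filter fun i => Nat.gcd i T ≠ 1).Nonempty := by
        obtain ⟨i, h1, h2, h3⟩ := hex
        exact ⟨i, Finset.mem_filter.2 ⟨Finset.mem_Icc.2 ⟨h1, h2⟩, h3⟩⟩
      refine ⟨((Finset.Icc 1 h).filter fun i => Nat.gcd i T ≠ 1).max' hne, ?_, ?_⟩
      · have h1 := Finset.max'_mem _ hne
        rw [Finset.mem_filter, Finset.mem_Icc] at h1
        exact ⟨h1.1.1, h1.1.2, h1.2⟩
      · intro i hi hih
        by_contra hcon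
        have h1 := Finset.le_max' ((Finset.Icc 1 h).filter fun i => Nat.gcd i T ≠ 1) i
          (Finset.mem_filter.2 ⟨Finset.mem_Icc.2 ⟨by omega, hih⟩, hcon⟩)
        omega
    obtain ⟨u, hu⟩ : ∃ u, u = h - c := ⟨_, rfl⟩
    obtain ⟨g, hg⟩ : ∃ g, g = Nat.gcd c T := ⟨_, rfl⟩
    have hg0 : 0 < g := hg ▸ Nat.gcd_pos_of_pos_left T hc1
    have hg2 : 2 ≤ g := by omega
    have hgc : g ≤ c := hg ▸ Nat.gcd_le_left T hc1
    have hgT : g ∣ T := hg ▸ Nat.gcd_dvd_right c T
    have hpg : T.minFac ≤ g := Nat.minFac_le_of_dvd hg2 hgT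
    -- the waiting time
    have hup : u + 1 ≤ T.minFac := by
      by_contra hcon
      have h1 : T.minFac ≤ u := by omega
      have hppos := hp.pos
      have h2 : c % T.minFac < T.minFac := Nat.mod_lt _ hppos
      have h3 := hmax (c + (T.minFac - c % T.minFac)) (by omega) (by omega)
      have h4 : T.minFac ∣ c + (T.minFac - c % T.minFac) := by
        have h5 := Nat.div_add_mod c T.minFac
        refine ⟨c / T.minFac + 1, ?_⟩
        rw [mul_add, mul_one]
        omega
      have h5 := Nat.dvd_gcd h4 (Nat.minFac_dvd T)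
      rw [h3] at h5
      exact hp.one_lt.ne' (Nat.dvd_one.1 h5)
    have hsteps := unit1 hrec (c := c) hn hα (by rw [← hT]; exact hmax)
    have hau : α (n + u) = c := by
      rw [hsteps u (by omega)]
      omega
    have hnext : α (n + u + 1) = c - g := by
      rw [hrec (n + u) (by omega) (by omega), hau, hg]
      congr 1
      rw [show T = n + u + c by omega, Nat.gcd_add_self_right]
    have hph := phase hodd hgT hg2 hpg hup (T' := n + u + 1 + (c - g)) (by omega)
    rcases Nat.eq_zero_or_pos (c - g) with h0 | h0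
    · refine ⟨u + 1, by omega, ?_, ?_, ?_⟩
      · rw [← add_assoc, hnext, h0]
      · intro i hi
        rw [hsteps i (by omega)]
        omega
      · have h2 := (Nat.minFac_prime (show n + (u + 1) ≠ 1 by omega)).two_le
        omega
    · have hodd' : Odd (n + u + 1 + (c - g)) := by
        have hgo : Odd g := Odd.of_dvd_nat hodd hgT
        rw [Nat.odd_iff] at *
        omega
      obtain ⟨t, ht0, htz, htp, ht3⟩ :=
        ih (c - g) (by omega) (n + u + 1) (by omega) hnext h0 hodd'
      refine ⟨u + 1 + t, by omega, ?_, ?_, ?_⟩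
      · rw [show n + (u + 1 + t) = n + u + 1 + t by omega]
        exact htz
      · intro i hi
        rcases Nat.lt_or_ge i (u + 1) with h1 | h1
        · rw [hsteps i (by omega)]
          omega
        · have h2 := htp (i - (u + 1)) (by omega)
          rw [show n + i = n + u + 1 + (i - (u + 1)) by omega]
          exact h2
      · rw [show n + (u + 1 + t) = n + u + 1 + t by omega]
        omega
  · push Not at hex
    have hsteps := unit1 hrec (c := 0) hn hα
      (by rw [← hT]; exact fun i h1 h2 => hex i h1 h2)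
    refine ⟨h, hh, ?_, ?_, ?_⟩
    · rw [hsteps h (by omega)]
      omega
    · intro i hi
      rw [hsteps i (by omega)]
      omega
    · rw [← hT]
      have h1 : ¬ T.minFac ≤ h := by
        intro h1
        have h2 := hex T.minFac hp.one_lt.le h1
        have h3 := Nat.dvd_gcd (dvd_refl T.minFac) (Nat.minFac_dvd T)
        rw [h2] at h3
        exact hp.one_lt.ne' (Nat.dvd_one.1 h3)
      omega

end H60GR
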