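import Pool.Agent.H60.GR.Zeros

/-!
# The gcd recursion of MP_019c9a: growth of the restart values
-/

set_option autoImplicit false

namespace H60GR

open Filter Topology

/-- The loss at a composite value: `R` is `P + 1`, `s` the least prime factor of the next value. -/
theorem loss {m R R' s : ℕ} (hm : 1 ≤ m) (h3 : 3 * R' ≤ (2 * m + 3) * R + m * (s + 1))
    (hs : s * s < R') (hle : R' ≤ (m + 1) * R) (hR : 196 * (m + 1) ≤ R) :
    7 * R' ≤ 6 * ((m + 1) * R) := by
  have h1 : 14 * s ≤ R := by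
    by_contra hcon
    have h2 : R < 14 * s := by omega
    have h3 : R * R < 196 * (s * s) := by nlinarith
    have h4 : 196 * (s * s) < 196 * ((m + 1) * R) := by nlinarith
    have h5 : 196 * ((m + 1) * R) ≤ R * R := by nlinarith
    omega
  have h2 : 7 * (s + 1) ≤ R := by omega
  nlinarith

/-- A sequence with `R (k + 1) ≤ q R k` and a loss of `6 / 7` at the bad `k + 1`. -/
theorem iterate {q : ℝ} (hq : 0 < q) {R : ℕ → ℝ} (hR : ∀ k, 0 < R k) {bad : ℕ → Prop}
    [DecidablePred bad] {k0 : ℕ} (h1 : ∀ k, 1 ≤ k → R (k + 1) ≤ q * R k)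
    (h2 : ∀ k, k0 ≤ k → bad (k + 1) → R (k + 1) ≤ 6 / 7 * (q * R k)) :
    ∃ C : ℝ, 0 < C ∧ ∀ K, R K ≤ C * (6 / 7) ^ ((Finset.Icc 1 K).filter bad).card * q ^ K := by
  obtain ⟨N, hN⟩ : ∃ N : ℕ → ℕ, ∀ K, N K = ((Finset.Icc 1 K).filter bad).card := ⟨_, fun _ => rfl⟩
  have hN1 : ∀ K, N (K + 1) ≤ N K + 1 := by
    intro K
    rw [hN, hN, ← Finset.insert_Icc_right_eq_Icc_add_one (by omega), Finset.filter_insert]
    split_ifs
    · exact Finset.card_insert_le _ _
    · omega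
  have hN2 : ∀ K, ¬ bad (K + 1) → N (K + 1) = N K := by
    intro K hb
    rw [hN, hN, ← Finset.insert_Icc_right_eq_Icc_add_one (by omega), Finset.filter_insert, if_neg hb]
  have hx : ∀ n : ℕ, (0 : ℝ) < (6 / 7) ^ n := fun n => by positivity
  -- the constant
  obtain ⟨C, hC⟩ : ∃ C : ℝ, C = ∑ j ∈ Finset.range (k0 + 2), R j / ((6 / 7) ^ (N j) * q ^ j) :=
    ⟨_, rfl⟩
  have hpos : ∀ j, 0 < R j / ((6 / 7) ^ (N j) * q ^ j) := fun j =>
    div_pos (hR j) (mul_pos (hx _) (pow_pos hq _))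
  have hCpos : 0 < C := by
    rw [hC]
    exact Finset.sum_pos (fun j _ => hpos j) ⟨0, by simp⟩
  have hsmall : ∀ j, j < k0 + 2 → R j ≤ C * (6 / 7) ^ (N j) * q ^ j := by
    intro j hj
    have h3 : R j / ((6 / 7) ^ (N j) * q ^ j) ≤ C := by
      rw [hC]
      exact Finset.single_le_sum (f := fun j => R j / ((6 / 7) ^ (N j) * q ^ j))
        (fun i _ => (hpos i).le) (Finset.mem_range.2 hj)
    rw [div_le_iff₀ (mul_pos (hx _) (pow_pos hq _))] at h3
    rw [mul_assoc]
    exact h3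
  refine ⟨C, hCpos, fun K => ?_⟩
  rw [← hN]
  induction K with
  | zero => exact hsmall 0 (by omega)
  | succ K ih =>
    rcases Nat.lt_or_ge (K + 1) (k0 + 2) with hlt | hge
    · exact hsmall _ hlt
    · have e : C * (6 / 7) ^ N K * q ^ (K + 1) = q * (C * (6 / 7) ^ N K * q ^ K) := by ring
      by_cases hb : bad (K + 1)
      · have h3 := h2 K (by omega) hb
        have h4 : (6 / 7 : ℝ) ^ (N K + 1) ≤ (6 / 7) ^ N (K + 1) :=
          pow_le_pow_of_le_one (by norm_num) (by norm_num) (hN1 K)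
        calc R (K + 1) ≤ 6 / 7 * (q * R K) := h3
          _ ≤ 6 / 7 * (q * (C * (6 / 7) ^ N K * q ^ K)) := by gcongr
          _ = C * (6 / 7) ^ (N K + 1) * q ^ (K + 1) := by ring
          _ ≤ C * (6 / 7) ^ N (K + 1) * q ^ (K + 1) := by gcongr
      · rw [hN2 K hb, e]
        exact (h1 K (by omega)).trans (by gcongr)

/-- The limit, and finitely many bad indices if it is positive. -/
theorem limit {q : ℝ} (hq : 0 < q) {R : ℕ → ℝ} (hR : ∀ k, 0 < R k) {bad : ℕ → Prop}
    [DecidablePred bad] {k0 : ℕ} (h1 : ∀ k, 1 ≤ k → R (k + 1) ≤ q * R k)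
    (h2 : ∀ k, k0 ≤ k → bad (k + 1) → R (k + 1) ≤ 6 / 7 * (q * R k)) :
    ∃ c : ℝ, 0 ≤ c ∧ Tendsto (fun k => R k / q ^ k) atTop (𝓝 c) ∧
      (0 < c → ∃ K, ∀ k, K ≤ k → ¬ bad k) := by
  have hanti : Antitone fun k => R (k + 1) / q ^ (k + 1) := by
    refine antitone_nat_of_succ_le fun k => ?_
    rw [div_le_div_iff₀ (pow_pos hq _) (pow_pos hq _)]
    calc R (k + 1 + 1) * q ^ (k + 1) ≤ q * R (k + 1) * q ^ (k + 1) := by
          have := h1 (k + 1) (by omega)
          gcongr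
      _ = R (k + 1) * q ^ (k + 1 + 1) := by ring
  have hbdd : BddBelow (Set.range fun k => R (k + 1) / q ^ (k + 1)) := by
    refine ⟨0, ?_⟩
    rintro _ ⟨k, rfl⟩
    exact (div_pos (hR _) (pow_pos hq _)).le
  have ht := tendsto_atTop_ciInf hanti hbdd
  obtain ⟨c, hc⟩ : ∃ c, c = ⨅ k, R (k + 1) / q ^ (k + 1) := ⟨_, rfl⟩
  rw [← hc] at ht
  have ht' : Tendsto (fun k => R k / q ^ k) atTop (𝓝 c) := (tendsto_add_atTop_iff_nat 1).1 ht
  have hc0 : 0 ≤ c := ge_of_tendsto' ht' fun k => (div_pos (hR _) (pow_pos hq _)).le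
  refine ⟨c, hc0, ht', fun hcp => ?_⟩
  by_contra hcon
  push Not at hcon
  obtain ⟨C, hCpos, hC⟩ := iterate hq hR h1 h2
  have hmono : Monotone fun K => ((Finset.Icc 1 K).filter bad).card := by
    intro K K' hK
    exact Finset.card_le_card (Finset.filter_subset_filter _ (Finset.Icc_subset_Icc le_rfl hK))
  have hNt : Tendsto (fun K => ((Finset.Icc 1 K).filter bad).card) atTop atTop := by
    refine tendsto_atTop_atTop_of_monotone hmono fun b => ?_
    induction b with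
    | zero => exact ⟨0, Nat.zero_le _⟩
    | succ b ih =>
      obtain ⟨K, hK⟩ := ih
      obtain ⟨k, hk, hbk⟩ := hcon (K + 1)
      refine ⟨k, ?_⟩
      have h3 : insert k ((Finset.Icc 1 K).filter bad) ⊆ (Finset.Icc 1 k).filter bad := by
        intro i hi
        rw [Finset.mem_insert] at hi
        rcases hi with rfl | hi
        · exact Finset.mem_filter.2 ⟨Finset.mem_Icc.2 ⟨by omega, le_rfl⟩, hbk⟩
        · rw [Finset.mem_filter, Finset.mem_Icc] at hi ⊢
          exact ⟨⟨hi.1.1, by omega⟩, hi.2⟩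
      have h4 := Finset.card_le_card h3
      rw [Finset.card_insert_of_notMem (by
        rw [Finset.mem_filter, Finset.mem_Icc]
        intro h5
        omega)] at h4
      omega
  have h5 : Tendsto (fun K => C * (6 / 7 : ℝ) ^ ((Finset.Icc 1 K).filter bad).card) atTop (𝓝 0) := by
    have h6 := (tendsto_pow_atTop_nhds_zero_of_lt_one (r := (6 / 7 : ℝ)) (by norm_num)
      (by norm_num)).comp hNt
    have h7 := h6.const_mul C
    rw [mul_zero] at h7
    exact h7
  have h6 : c ≤ 0 := by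
    refine le_of_tendsto_of_tendsto' ht' h5 fun K => ?_
    rw [div_le_iff₀ (pow_pos hq _)]
    exact hC K
  exact absurd hcp (not_lt.2 h6)

end H60GR
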