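import Pool.Agent.H60.GR.Base

/-!
# The gcd recursion of MP_019c9a: consecutive zeros
-/

set_option autoImplicit false

namespace H60GR

open Filter Topology

/-- The index `n ≥ 1` is a zero. -/
def Zer (α : ℕ → ℕ) (n : ℕ) : Prop := 1 ≤ n ∧ α n = 0

/-- The full recursion. -/
structure Full (m : ℕ) (α : ℕ → ℕ) : Prop where
  pos : Rec m α
  one : α 1 = 1
  zero : ∀ n, 1 ≤ n → α n = 0 → α (n + 1) = m * (n + 1) - 1

variable {m : ℕ} {α : ℕ → ℕ}

/-- From a zero to the next one. -/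
theorem next_zero (hm : 1 ≤ m) (h : Full m α) {z : ℕ} (hz : Zer α z) :
    ∃ t, 0 < t ∧ Zer α (z + 1 + t) ∧ (∀ i, z < i → i < z + 1 + t → ¬ Zer α i) ∧
      t ≤ m * (z + 1) - 1 ∧
      3 * t ≤ 2 * (m * (z + 1) - 1) + (m * (z + 1 + t + 1) - 1).minFac := by
  have h1 := h.zero z hz.1 hz.2
  have h2 : 0 < m * (z + 1) - 1 := by
    have h3 := hz.1
    have : 2 ≤ m * (z + 1) := by nlinarith
    omega
  obtain ⟨t, ht0, htz, htp, hth, ht3⟩ := descent hm h.pos _ (z + 1) (by omega) h1 h2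
  refine ⟨t, ht0, ⟨by omega, htz⟩, ?_, hth, ht3⟩
  intro i hi1 hi2 hi3
  have h4 := htp (i - (z + 1)) (by omega)
  rw [show z + 1 + (i - (z + 1)) = i by omega, hi3.2] at h4
  exact lt_irrefl _ h4

theorem zer_infinite (hm : 1 ≤ m) (h : Full m α) : (Set.ofPred (Zer α)).Infinite := by
  have h0 : ∃ z, Zer α z := by
    obtain ⟨t, _, htz, _⟩ := descent hm h.pos 1 1 le_rfl h.one one_pos
    exact ⟨1 + t, by omega, htz⟩
  have hs : ∀ N, ∃ z, N ≤ z ∧ Zer α z := by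
    intro N
    induction N with
    | zero =>
      obtain ⟨z, hz⟩ := h0
      exact ⟨z, Nat.zero_le _, hz⟩
    | succ N ih =>
      obtain ⟨z, hz1, hz2⟩ := ih
      obtain ⟨t, ht0, htz, _⟩ := next_zero hm h hz2
      exact ⟨z + 1 + t, by omega, htz⟩
  rw [Set.infinite_iff_exists_gt]
  intro N
  obtain ⟨z, hz1, hz2⟩ := hs (N + 1)
  exact ⟨z, hz2, by omega⟩

/-- The zero after the `k`-th one. -/
theorem nth_succ (hm : 1 ≤ m) (h : Full m α) (k : ℕ) :
    ∃ t, 0 < t ∧ Nat.nth (Zer α) (k + 1) = Nat.nth (Zer α) k + 1 + t ∧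
      t ≤ m * (Nat.nth (Zer α) k + 1) - 1 ∧
      3 * t ≤ 2 * (m * (Nat.nth (Zer α) k + 1) - 1) +
        (m * (Nat.nth (Zer α) (k + 1) + 1) - 1).minFac := by
  have hinf := zer_infinite hm h
  have hz : Zer α (Nat.nth (Zer α) k) := Nat.nth_mem_of_infinite hinf k
  obtain ⟨t, ht0, htz, htn, hth, ht3⟩ := next_zero hm h hz
  have h1 : Nat.nth (Zer α) (k + 1) = Nat.nth (Zer α) k + 1 + t := by
    have h2 : Nat.nth (Zer α) k < Nat.nth (Zer α) (k + 1) :=
      (Nat.nth_lt_nth hinf).2 (Nat.lt_succ_self k)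
    refine le_antisymm ?_ ?_
    · by_contra hcon
      have h3 : Nat.nth (Zer α) k + 1 + t < Nat.nth (Zer α) (k + 1) := by omega
      have h4 := Nat.le_nth_of_lt_nth_succ h3 htz
      omega
    · by_contra hcon
      exact htn _ h2 (by omega) (Nat.nth_mem_of_infinite hinf (k + 1))
  exact ⟨t, ht0, h1, hth, by rw [h1]; exact ht3⟩

end H60GR
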